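import Pool.Agent.MP_f7711f_nt.H9.LLN

/-! For large `k`, almost every logarithmic function of length `k` has image of size
`(1 - 1/e + o(1)) k`. -/

set_option autoImplicit false

namespace Pool.Agent.Results.MP_f7711f_nt.RandomImage

open Finset Pool.Agent.MP_f7711f_nt.H9

/-- The logarithmic functions of length `k`. -/
def Logs (k : ℕ) : Set (Set.Icc 1 k → ZMod k) :=
  {f | ∀ a b c : Set.Icc 1 k, (c : ℕ) = (a : ℕ) * (b : ℕ) → f c = f a + f b}

theorem result : ∀ ε : ℝ, 0 < ε → ∃ k₀ : ℕ, ∀ k : ℕ, k₀ ≤ k →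
    (({f ∈ Logs k | ε < |((Set.range f).ncard : ℝ) / k - (1 - Real.exp (-1))|}.ncard : ℝ)
      ≤ ε * (Logs k).ncard) ∧
    ∃ f ∈ Logs k, (1 - Real.exp (-1) - ε) * k ≤ ((Set.range f).ncard : ℝ) := by
  classical
  intro ε hε
  obtain ⟨k₁, h₁⟩ := lln hε
  obtain ⟨k₂, h₂⟩ := lln (lt_min hε (show (0 : ℝ) < 1 / 2 by norm_num))
  refine ⟨max 1 (max k₁ k₂), fun k hk => ?_⟩
  have hk0 : 0 < k := (le_max_left _ _).trans hk
  have : NeZero k := ⟨hk0.ne'⟩
  have hk' : (0 : ℝ) < k := by exact_mod_cast hk0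
  have hL : Logs k = Set.range (Res k) := Set.ext fun f => (range_Res f).symm
  have hK : (0 : ℝ) < Fintype.card (Fin (k + 1) → ZMod k) := by exact_mod_cast Fintype.card_pos
  constructor
  · have h3 := h₁ k ((le_max_left _ _).trans ((le_max_right _ _).trans hk))
    have h4 := card_preimage (Res k)
      {f ∈ Logs k | ε < |((Set.range f).ncard : ℝ) / k - (1 - Real.exp (-1))|}
      (fun f hf => hL ▸ hf.1)
    have h5 := card_preimage (Res k) (Logs k) hL.le
    have h6 : (univ.filter fun ω => Res k ω ∈ Logs k) = univ :=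
      Finset.filter_true_of_mem fun ω _ => hL ▸ Set.mem_range_self ω
    have h7 : (univ.filter fun ω => Res k ω ∈
        {f ∈ Logs k | ε < |((Set.range f).ncard : ℝ) / k - (1 - Real.exp (-1))|})
        = univ.filter fun ω : Fin (k + 1) → ZMod k =>
          ε < |(((Icc 1 k).image (F ω)).card : ℝ) / k - (1 - Real.exp (-1))| := by
      refine Finset.filter_congr fun ω _ => ?_
      rw [Set.mem_sep_iff, ncard_range_Res]
      exact and_iff_right (hL ▸ Set.mem_range_self ω)
    rw [h6, Finset.card_univ] at h5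
    rw [h7] at h4
    rw [h4, h5] at h3
    rw [h5] at hK
    push_cast at h3 hK
    have h8 := pos_of_mul_pos_right hK (by positivity)
    rw [← mul_assoc] at h3
    exact le_of_mul_le_mul_right h3 h8
  · have h3 := h₂ k ((le_max_right _ _).trans ((le_max_right _ _).trans hk))
    by_contra hc
    push Not at hc
    rw [Finset.filter_true_of_mem, Finset.card_univ] at h3
    · nlinarith [min_le_right ε (1 / 2)]
    · intro ω _
      have h4 := hc (Res k ω) (hL ▸ Set.mem_range_self ω)
      rw [ncard_range_Res, ← div_lt_iff₀ hk'] at h4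
      exact lt_abs.mpr (Or.inr (by linarith [min_le_left ε (1 / 2)]))

end Pool.Agent.Results.MP_f7711f_nt.RandomImage
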